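import Mathlib

/-!
# Dense cyclic orders are not weakly VC-minimal

The theory of dense cyclic orders has low VC-density and is dp-minimal, since it is a reduct of the
theory of dense linear orders. But it is not weakly VC-minimal: an infinite coinfinite definable
subset of the line crosses one of its conjugates, so the formulas of independence dimension at most
one only have finite and cofinite instances.
-/

set_option autoImplicit false

namespace Pool.Agent.Results.MP_670fc8_lc.DenseCyclicOrder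

open Set
open scoped FirstOrder

section general

variable {L : FirstOrder.Language.{0, 0}}

/-- The subset `φ(M; b)` of `M ^ k`. -/
def inst {M : Type} [L.Structure M] {k m : ℕ} (φ : L.Formula (Fin k ⊕ Fin m)) (b : Fin m → M) :
    Set (Fin k → M) :=
  {a | φ.Realize (Sum.elim a b)}

/-- Independent families of subsets of `X`: all the intersections `⋂ B ^ s(B)` are nonempty. -/
def Independent {X : Type} (A : Set (Set X)) : Prop :=
  ∀ S ⊆ A, ((⋂ B ∈ S, B) ∩ ⋂ B ∈ A \ S, Bᶜ).Nonempty

/-- The independence dimension of `φ(x; y)` is at most `d`. -/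
def IndepDimLE (T : L.Theory) {k m : ℕ} (φ : L.Formula (Fin k ⊕ Fin m)) (d : ℕ) : Prop :=
  ∀ (M : Type) [L.Structure M] [Nonempty M], M ⊨ T →
    ∀ A ⊆ {X : Set (Fin k → M) | ∃ b : Fin m → M, X = inst φ b}, Independent A → A.encard ≤ d

/-- `T` is weakly VC-minimal: every definable subset of a model of `T` in one variable is a Boolean
combination of instances of formulas of independence dimension at most one. -/
def WeaklyVCMinimal (T : L.Theory) : Prop :=
  ∀ (M : Type) [L.Structure M] [Nonempty M], M ⊨ T →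
    ∀ (m : ℕ) (φ : L.Formula (Fin 1 ⊕ Fin m)) (b : Fin m → M),
      inst φ b ∈ BooleanSubalgebra.closure {X : Set (Fin 1 → M) |
        ∃ (m' : ℕ) (ψ : L.Formula (Fin 1 ⊕ Fin m')) (c : Fin m' → M),
          IndepDimLE T ψ 1 ∧ X = inst ψ c}

/-- The set of all the `φ`-types over `B` of `k`-tuples, where a `φ`-type over `B` is identified
with the set of the `b ∈ B` such that it contains `φ(x; b)`. -/
def typesOver {M : Type} [L.Structure M] {k m : ℕ} (φ : L.Formula (Fin k ⊕ Fin m))
    (B : Finset (Fin m → M)) : Set (Set (Fin m → M)) :=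
  {S | ∃ a : Fin k → M, S = {b | b ∈ B ∧ φ.Realize (Sum.elim a b)}}

/-- The maximal number of `φ`-types over sets `B` with `n` elements is `O(n ^ r)`. -/
def DensityBound (T : L.Theory) {k m : ℕ} (φ : L.Formula (Fin k ⊕ Fin m)) (r : ℝ) : Prop :=
  ∃ C : ℝ, ∀ n : ℕ, 1 ≤ n → ∀ (M : Type) [L.Structure M] [Nonempty M], M ⊨ T →
    ∀ B : Finset (Fin m → M), B.card = n → ((typesOver φ B).ncard : ℝ) ≤ C * (n : ℝ) ^ r

/-- The VC-density of `φ(x; y)`, counting `φ`-types in `x`. -/
noncomputable def vcDensity (T : L.Theory) {k m : ℕ} (φ : L.Formula (Fin k ⊕ Fin m)) : EReal :=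
  sInf {r : EReal | ∃ s : ℝ, 0 ≤ s ∧ DensityBound T φ s ∧ r = s}

/-- `T` has low VC-density: every formula `φ(x; y)` has VC-density at most `|x|`. -/
def LowVCDensity (T : L.Theory) : Prop :=
  ∀ (k m : ℕ) (φ : L.Formula (Fin k ⊕ Fin m)), vcDensity T φ ≤ k

/-- `T` is dp-minimal: there are no formulas `φ(x; y)`, `ψ(x; z)` and sequences `b`, `c` in a model
such that, for all `i, j`, the formulas `φ(x; b i)`, `ψ(x; c j)`, `¬ φ(x; b k)` (`k ≠ i`) and
`¬ ψ(x; c l)` (`l ≠ j`) are finitely satisfiable. -/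
def DpMinimal (T : L.Theory) : Prop :=
  ¬ ∃ (m m' : ℕ) (φ : L.Formula (Fin 1 ⊕ Fin m)) (ψ : L.Formula (Fin 1 ⊕ Fin m')) (M : Type)
    (_ : L.Structure M) (_ : Nonempty M) (_ : M ⊨ T) (b : ℕ → Fin m → M) (c : ℕ → Fin m' → M),
    ∀ (i j : ℕ) (F : Finset ℕ), ∃ a : Fin 1 → M, a ∈ inst φ (b i) ∧ a ∈ inst ψ (c j) ∧
      (∀ k ∈ F, k ≠ i → a ∉ inst φ (b k)) ∧ ∀ l ∈ F, l ≠ j → a ∉ inst ψ (c l)

end general

/-! ### Cyclic orders -/

/-- One ternary relation symbol. -/
inductive Rel : ℕ → Type
  | cyc : Rel 3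

/-- The language of cyclic orders. -/
@[reducible] def Lang : FirstOrder.Language.{0, 0} := ⟨fun _ => Empty, Rel⟩

/-- The cyclic order of a linear order. -/
def C {M : Type} [LinearOrder M] (x y z : M) : Prop :=
  (x < y ∧ y < z) ∨ (y < z ∧ z < x) ∨ (z < x ∧ x < y)

/-- The cyclic order of a linear order, as a structure. -/
instance cycStr (M : Type) [LinearOrder M] : Lang.Structure M where
  funMap := fun f => Empty.elim f
  RelMap := fun r v => match r with
    | .cyc => C (v 0) (v 1) (v 2)

/-- Two families with the same order type. -/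
def Same {ι M : Type} [LinearOrder M] (f g : ι → M) : Prop := ∀ i j, f i < f j ↔ g i < g j

theorem Same.eq_iff {ι M : Type} [LinearOrder M] {f g : ι → M} (h : Same f g) (i j : ι) :
    f i = f j ↔ g i = g j := by
  have h1 := h i j
  have h2 := h j i
  constructor
  · intro e
    by_contra hne
    rcases lt_or_gt_of_ne hne with h3 | h3
    · exact absurd (h1.2 h3) (by rw [e]; exact lt_irrefl _)
    · exact absurd (h2.2 h3) (by rw [e]; exact lt_irrefl _)
  · intro e
    by_contra hne
    rcases lt_or_gt_of_ne hne with h3 | h3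
    · exact absurd (h1.1 h3) (by rw [e]; exact lt_irrefl _)
    · exact absurd (h2.1 h3) (by rw [e]; exact lt_irrefl _)

section bf

variable {M : Type} [LinearOrder M] [DenselyOrdered M] [NoMinOrder M] [NoMaxOrder M] [Nonempty M]

theorem extend {ι : Type} [Finite ι] {f g : ι → M} (h : Same f g) (x : M) :
    ∃ y : M, ∀ i, (f i < x ↔ g i < y) ∧ (x < f i ↔ y < g i) := by
  classical
  cases nonempty_fintype ι
  by_cases hx : ∃ i, f i = x
  · obtain ⟨i, rfl⟩ := hx
    exact ⟨g i, fun j => ⟨h j i, h i j⟩⟩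
  · push Not at hx
    obtain ⟨y, hy1, hy2⟩ := Order.exists_between_finsets
      ((Finset.univ.filter fun i => f i < x).image g) ((Finset.univ.filter fun i => x < f i).image g)
      (by
        intro a ha b hb
        simp only [Finset.mem_image, Finset.mem_filter, Finset.mem_univ, true_and] at ha hb
        obtain ⟨i, hi, rfl⟩ := ha
        obtain ⟨j, hj, rfl⟩ := hb
        exact (h i j).1 (hi.trans hj))
    simp only [Finset.mem_image, Finset.mem_filter, Finset.mem_univ, true_and,
      forall_exists_index, and_imp, forall_apply_eq_imp_iff₂] at hy1 hy2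
    refine ⟨y, fun i => ?_⟩
    rcases lt_or_gt_of_ne (hx i) with h1 | h1
    · exact ⟨⟨fun _ => hy1 i h1, fun _ => h1⟩, ⟨fun h2 => absurd (h1.trans h2) (lt_irrefl _),
        fun h2 => absurd ((hy1 i h1).trans h2) (lt_irrefl _)⟩⟩
    · exact ⟨⟨fun h2 => absurd (h1.trans h2) (lt_irrefl _),
        fun h2 => absurd ((hy2 i h1).trans h2) (lt_irrefl _)⟩, ⟨fun _ => hy2 i h1, fun _ => h1⟩⟩

theorem same_snoc {α : Type} {n : ℕ} {v v' : α → M} {xs xs' : Fin n → M}
    (h : Same (Sum.elim v xs) (Sum.elim v' xs')) {x y : M}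
    (hxy : ∀ i, ((Sum.elim v xs) i < x ↔ (Sum.elim v' xs') i < y) ∧
      (x < (Sum.elim v xs) i ↔ y < (Sum.elim v' xs') i)) :
    Same (Sum.elim v (Fin.snoc xs x : Fin (n + 1) → M))
      (Sum.elim v' (Fin.snoc xs' y : Fin (n + 1) → M)) := by
  have key : ∀ i : α ⊕ Fin (n + 1), (∃ j, (Sum.elim v (Fin.snoc xs x : Fin (n + 1) → M)) i =
      (Sum.elim v xs) j ∧ (Sum.elim v' (Fin.snoc xs' y : Fin (n + 1) → M)) i =
      (Sum.elim v' xs') j) ∨ ((Sum.elim v (Fin.snoc xs x : Fin (n + 1) → M)) i = x ∧
      (Sum.elim v' (Fin.snoc xs' y : Fin (n + 1) → M)) i = y) := by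
    rintro (i | i)
    · exact Or.inl ⟨Sum.inl i, rfl, rfl⟩
    · refine Fin.lastCases ?_ (fun i => ?_) i
      · right
        simp
      · left
        exact ⟨Sum.inr i, by simp, by simp⟩
  intro i j
  rcases key i with ⟨i', h1, h2⟩ | ⟨h1, h2⟩ <;> rcases key j with ⟨j', h3, h4⟩ | ⟨h3, h4⟩ <;>
    rw [h1, h2, h3, h4]
  · exact h i' j'
  · exact (hxy i').1
  · exact (hxy j').2
  · exact ⟨fun h => absurd h (lt_irrefl _), fun h => absurd h (lt_irrefl _)⟩

/-- Tuples with the same order type satisfy the same formulas. -/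
theorem bf {α : Type} [Finite α] {n : ℕ} (φ : Lang.BoundedFormula α n) :
    ∀ (v v' : α → M) (xs xs' : Fin n → M), Same (Sum.elim v xs) (Sum.elim v' xs') →
      (φ.Realize v xs ↔ φ.Realize v' xs') := by
  induction φ with
  | falsum => intro v v' xs xs' h; exact Iff.rfl
  | equal t₁ t₂ =>
    intro v v' xs xs' h
    cases t₁ with
    | var i =>
      cases t₂ with
      | var j => exact h.eq_iff i j
      | func f _ => exact f.elim
    | func f _ => exact f.elim
  | rel R ts =>
    intro v v' xs xs' h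
    cases R with
    | cyc =>
      have key : ∀ i, ∃ j, ts i = FirstOrder.Language.Term.var j := by
        intro i
        cases ts i with
        | var j => exact ⟨j, rfl⟩
        | func f _ => exact f.elim
      choose j hj using key
      show C _ _ _ ↔ C _ _ _
      simp only [hj]
      show C (Sum.elim v xs _) (Sum.elim v xs _) (Sum.elim v xs _) ↔
        C (Sum.elim v' xs' _) (Sum.elim v' xs' _) (Sum.elim v' xs' _)
      unfold C
      rw [h, h, h]
  | imp φ ψ ih1 ih2 =>
    intro v v' xs xs' h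
    exact imp_congr (ih1 v v' xs xs' h) (ih2 v v' xs xs' h)
  | all φ ih =>
    intro v v' xs xs' h
    constructor
    · intro H y
      obtain ⟨x, hx⟩ := extend (f := Sum.elim v' xs') (g := Sum.elim v xs)
        (fun i j => (h i j).symm) y
      exact (ih v v' _ _ (same_snoc h fun i => ⟨(hx i).1.symm, (hx i).2.symm⟩)).1 (H x)
    · intro H x
      obtain ⟨y, hy⟩ := extend (f := Sum.elim v xs) (g := Sum.elim v' xs') h x
      exact (ih v v' _ _ (same_snoc h hy)).2 (H y)

theorem bf' {α : Type} [Finite α] (φ : Lang.Formula α) {v v' : α → M} (h : Same v v') :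
    φ.Realize v ↔ φ.Realize v' := by
  refine bf φ v v' default default ?_
  rintro (i | i) (j | j)
  · exact h i j
  · exact j.elim0
  · exact i.elim0
  · exact i.elim0

/-- The position of `x` with respect to a finite set. -/
def code (A : Finset M) (x : M) : ℕ := (A.filter (· < x)).card + (A.filter (· ≤ x)).card

omit [DenselyOrdered M] [NoMinOrder M] [NoMaxOrder M] [Nonempty M] in
theorem code_le (A : Finset M) (x : M) : code A x ≤ 2 * A.card := by
  have h1 := Finset.card_filter_le A (· < x)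
  have h2 := Finset.card_filter_le A (· ≤ x)
  unfold code
  omega

omit [DenselyOrdered M] [NoMinOrder M] [NoMaxOrder M] [Nonempty M] in
theorem code_mono (A : Finset M) {x y : M} (h : x ≤ y) : code A x ≤ code A y := by
  refine add_le_add (Finset.card_le_card fun a ha => ?_) (Finset.card_le_card fun a ha => ?_)
  · rw [Finset.mem_filter] at ha ⊢
    exact ⟨ha.1, ha.2.trans_le h⟩
  · rw [Finset.mem_filter] at ha ⊢
    exact ⟨ha.1, ha.2.trans h⟩

omit [DenselyOrdered M] [NoMinOrder M] [NoMaxOrder M] [Nonempty M] in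
theorem lt_of_code_lt (A : Finset M) {x y : M} (h : code A x < code A y) : x < y := by
  by_contra hne
  exact absurd (code_mono A (not_lt.1 hne)) (not_le.2 h)

omit [DenselyOrdered M] [NoMinOrder M] [NoMaxOrder M] [Nonempty M] in
theorem code_eq (A : Finset M) {x y : M} (h : code A x = code A y) :
    ∀ a ∈ A, (a < x ↔ a < y) ∧ (x < a ↔ y < a) := by
  wlog hxy : x ≤ y generalizing x y
  · intro a ha
    have := this h.symm (le_of_not_ge hxy) a ha
    exact ⟨this.1.symm, this.2.symm⟩
  have s1 : A.filter (· < x) ⊆ A.filter (· < y) := fun a ha => by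
    rw [Finset.mem_filter] at ha ⊢
    exact ⟨ha.1, ha.2.trans_le hxy⟩
  have s2 : A.filter (· ≤ x) ⊆ A.filter (· ≤ y) := fun a ha => by
    rw [Finset.mem_filter] at ha ⊢
    exact ⟨ha.1, ha.2.trans hxy⟩
  have c1 := Finset.card_le_card s1
  have c2 := Finset.card_le_card s2
  unfold code at h
  have e1 := Finset.eq_of_subset_of_card_le s1 (by omega)
  have e2 := Finset.eq_of_subset_of_card_le s2 (by omega)
  intro a ha
  constructor
  · have : a ∈ A.filter (· < x) ↔ a ∈ A.filter (· < y) := by rw [e1]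
    simpa only [Finset.mem_filter, ha, true_and] using this
  · have : a ∈ A.filter (· ≤ x) ↔ a ∈ A.filter (· ≤ y) := by rw [e2]
    simp only [Finset.mem_filter, ha, true_and] at this
    rw [← not_le, ← not_le, this]

/-- Tuples with the same code satisfy the same formulas. -/
theorem same_of_code {k : ℕ} {ι : Type} (A : Finset M) (d : ι → M) (hd : ∀ i, d i ∈ A)
    {a a' : Fin k → M} (h1 : ∀ i, code A (a i) = code A (a' i))
    (h2 : ∀ i j, cmp (a i) (a j) = cmp (a' i) (a' j)) :
    Same (Sum.elim a d) (Sum.elim a' d) := by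
  rintro (i | i) (j | j)
  · show a i < a j ↔ a' i < a' j
    rw [← cmp_eq_lt_iff, ← cmp_eq_lt_iff, h2]
  · exact (code_eq A (h1 i) _ (hd j)).2
  · exact (code_eq A (h1 j) _ (hd i)).1
  · exact Iff.rfl

/-- The number of types over finite sets. -/
theorem count {k : ℕ} {ι S κ : Type} [Fintype ι] [Fintype κ]
    (θ : S → Lang.Formula (Fin k ⊕ ι)) (d : ι → M) (a : κ → Fin k → M)
    (h : ∀ p q, p ≠ q → ∃ s, ¬ ((θ s).Realize (Sum.elim (a p) d) ↔
      (θ s).Realize (Sum.elim (a q) d))) :
    Fintype.card κ ≤ (2 * Fintype.card ι + 1) ^ k * 3 ^ (k * k) := by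
  classical
  let A : Finset M := Finset.univ.image d
  have hA : A.card ≤ Fintype.card ι := Finset.card_image_le
  have hd : ∀ i, d i ∈ A := fun i => Finset.mem_image_of_mem _ (Finset.mem_univ _)
  let F : κ → (Fin k → Fin (2 * Fintype.card ι + 1)) × (Fin k → Fin k → Ordering) := fun p =>
    (fun i => ⟨code A (a p i), by have := code_le A (a p i); omega⟩,
      fun i j => cmp (a p i) (a p j))
  have hF : Function.Injective F := by
    intro p q hpq
    by_contra hne
    obtain ⟨s, hs⟩ := h p q hne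
    refine hs (bf' (θ s) (same_of_code A d hd (fun i => ?_) fun i j => ?_))
    · have := congrFun (congrArg Prod.fst hpq) i
      exact congrArg Fin.val this
    · exact congrFun (congrFun (congrArg Prod.snd hpq) i) j
  have h1 := Fintype.card_le_of_injective F hF
  have h3 : Fintype.card Ordering = 3 := rfl
  rw [Fintype.card_prod, Fintype.card_fun, Fintype.card_fun, Fintype.card_fun, Fintype.card_fin,
    Fintype.card_fin, h3, ← pow_mul] at h1
  exact h1

end bf

/-! ### The structure and its theory -/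

/-- The underlying dense linear order. -/
abbrev M0 : Type := Bool ×ₗ ℚ

theorem lt_def (x y : M0) : x < y ↔ (ofLex x).1 < (ofLex y).1 ∨
    (ofLex x).1 = (ofLex y).1 ∧ (ofLex x).2 < (ofLex y).2 := by
  rw [Prod.Lex.lt_iff]

instance : DenselyOrdered M0 := ⟨by
  intro x y hxy
  rw [lt_def] at hxy
  rcases hxy with h | ⟨h1, h2⟩
  · refine ⟨toLex ((ofLex x).1, (ofLex x).2 + 1), ?_, ?_⟩
    · rw [lt_def]
      right
      exact ⟨rfl, lt_add_one _⟩
    · rw [lt_def]
      exact Or.inl h
  · refine ⟨toLex ((ofLex x).1, ((ofLex x).2 + (ofLex y).2) / 2), ?_, ?_⟩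
    · rw [lt_def]
      right
      refine ⟨rfl, ?_⟩
      show (ofLex x).2 < ((ofLex x).2 + (ofLex y).2) / 2
      linarith
    · rw [lt_def]
      right
      refine ⟨h1, ?_⟩
      show ((ofLex x).2 + (ofLex y).2) / 2 < (ofLex y).2
      linarith⟩

instance : NoMinOrder M0 := ⟨fun x => ⟨toLex ((ofLex x).1, (ofLex x).2 - 1), by
  rw [lt_def]
  exact Or.inr ⟨rfl, sub_one_lt _⟩⟩⟩

instance : NoMaxOrder M0 := ⟨fun x => ⟨toLex ((ofLex x).1, (ofLex x).2 + 1), by
  rw [lt_def]
  exact Or.inr ⟨rfl, lt_add_one _⟩⟩⟩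

/-- The rotation. -/
def rot : M0 ≃ M0 where
  toFun x := toLex (!(ofLex x).1, (ofLex x).2)
  invFun x := toLex (!(ofLex x).1, (ofLex x).2)
  left_inv x := by
    show toLex (!(!(ofLex x).1), (ofLex x).2) = x
    rw [Bool.not_not]
    rfl
  right_inv x := by
    show toLex (!(!(ofLex x).1), (ofLex x).2) = x
    rw [Bool.not_not]
    rfl

theorem C_rot (x y z : M0) : C (rot x) (rot y) (rot z) ↔ C x y z := by
  unfold C
  simp only [lt_def]
  obtain ⟨x1, x2⟩ := x
  obtain ⟨y1, y2⟩ := y
  obtain ⟨z1, z2⟩ := z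
  simp only [rot, Equiv.coe_fn_mk, ofLex_toLex]
  cases x1 <;> cases y1 <;> cases z1 <;> simp <;> tauto

/-- The rotation as an automorphism. -/
def rotE : M0 ≃[Lang] M0 where
  toEquiv := rot
  map_fun' := fun f => Empty.elim f
  map_rel' := fun r v => by
    cases r with
    | cyc => exact C_rot _ _ _

/-- The theory of dense cyclic orders. -/
def T0 : Lang.Theory := Lang.completeTheory M0

/-- Finitely many formulas hold of some elements of `M0` exactly as they do in a given model. -/
theorem transfer {M : Type} [Lang.Structure M] [Nonempty M] (hM : M ⊨ T0) {α S : Type} [Finite α]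
    [Finite S] (θ : S → Lang.Formula α) (v : α → M) :
    ∃ w : α → M0, ∀ s, (θ s).Realize w ↔ (θ s).Realize v := by
  classical
  let χ : Lang.Formula α :=
    FirstOrder.Language.Formula.iInf fun s => if (θ s).Realize v then θ s else ∼(θ s)
  have hχ : ∀ {N : Type} [Lang.Structure N] (w : α → N), χ.Realize w ↔
      ∀ s, (θ s).Realize w ↔ (θ s).Realize v := by
    intro N _ w
    rw [FirstOrder.Language.Formula.realize_iInf]
    refine forall_congr' fun s => ?_
    split_ifs with h
    · simp [h]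
    · simp [h, FirstOrder.Language.Formula.realize_not]
  let ψ : Lang.Sentence := (χ.relabel (Sum.inr : α → Empty ⊕ α)).iExs α
  have hψ : ∀ {N : Type} [Lang.Structure N], N ⊨ ψ ↔ ∃ w : α → N, χ.Realize w := by
    intro N _
    show FirstOrder.Language.Formula.Realize ψ _ ↔ _
    rw [FirstOrder.Language.Formula.realize_iExs]
    refine exists_congr fun w => ?_
    rw [FirstOrder.Language.Formula.realize_relabel]
    rfl
  have h1 : M ⊨ ψ := hψ.2 ⟨v, (hχ v).2 fun s => Iff.rfl⟩
  have h2 : M0 ⊨ ψ := by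
    by_contra hne
    have h3 : ψ.not ∈ T0 := by
      show ψ.not ∈ Lang.completeTheory M0
      rw [FirstOrder.Language.mem_completeTheory]
      exact hne
    have h4 := hM.realize_of_mem _ h3
    exact h4 h1
  obtain ⟨w, hw⟩ := hψ.1 h2
  exact ⟨w, (hχ w).1 hw⟩

theorem count' {M : Type} [Lang.Structure M] [Nonempty M] (hM : M ⊨ T0) {k : ℕ} {ι S κ : Type}
    [Fintype ι] [Finite S] [Fintype κ] (θ : S → Lang.Formula (Fin k ⊕ ι)) (d : ι → M)
    (a : κ → Fin k → M)
    (h : ∀ p q, p ≠ q → ∃ s, ¬ ((θ s).Realize (Sum.elim (a p) d) ↔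
      (θ s).Realize (Sum.elim (a q) d))) :
    Fintype.card κ ≤ (2 * Fintype.card ι + 1) ^ k * 3 ^ (k * k) := by
  obtain ⟨w, hw⟩ := transfer hM (α := (κ × Fin k) ⊕ ι) (S := κ × S)
    (fun ps => (θ ps.2).relabel (Sum.map (fun i => (ps.1, i)) id)) (Sum.elim (fun pi => a pi.1 pi.2) d)
  have hw' : ∀ p s, (θ s).Realize (Sum.elim (fun i => w (Sum.inl (p, i))) fun i => w (Sum.inr i)) ↔
      (θ s).Realize (Sum.elim (a p) d) := by
    intro p s
    have := hw (p, s)
    rw [FirstOrder.Language.Formula.realize_relabel,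
      FirstOrder.Language.Formula.realize_relabel] at this
    have e1 : (w ∘ Sum.map (fun i : Fin k => (p, i)) id) =
        Sum.elim (fun i => w (Sum.inl (p, i))) fun i => w (Sum.inr i) := by
      funext i
      rcases i with i | i <;> rfl
    have e2 : ((Sum.elim (fun pi : κ × Fin k => a pi.1 pi.2) d) ∘
        Sum.map (fun i : Fin k => (p, i)) id) = Sum.elim (a p) d := by
      funext i
      rcases i with i | i <;> rfl
    dsimp only at this
    rw [e1, e2] at this
    exact this
  refine count (M := M0) θ (fun i => w (Sum.inr i)) (fun p i => w (Sum.inl (p, i))) ?_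
  intro p q hpq
  obtain ⟨s, hs⟩ := h p q hpq
  refine ⟨s, ?_⟩
  rw [hw', hw']
  exact hs

/-! ### Low VC-density and dp-minimality -/

theorem card_typesOver {M : Type} [Lang.Structure M] [Nonempty M] (hM : M ⊨ T0) {k m : ℕ}
    (φ : Lang.Formula (Fin k ⊕ Fin m)) (B : Finset (Fin m → M)) :
    (typesOver φ B).ncard ≤ (2 * (B.card * m) + 1) ^ k * 3 ^ (k * k) := by
  classical
  have hfin : (typesOver φ B).Finite := by
    refine (B.finite_toSet.finite_subsets).subset ?_
    rintro S ⟨a, rfl⟩ b hb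
    exact hb.1
  rw [Set.ncard_eq_toFinset_card _ hfin]
  have hcard : hfin.toFinset.card = Fintype.card hfin.toFinset := (Fintype.card_coe _).symm
  have hmem : ∀ p : hfin.toFinset, ∃ a : Fin k → M,
      p.1 = {b | b ∈ B ∧ φ.Realize (Sum.elim a b)} := fun p => hfin.mem_toFinset.1 p.2
  choose a ha using hmem
  have := count' hM (ι := B × Fin m) (S := B) (κ := hfin.toFinset)
    (fun b => φ.relabel (Sum.map id fun i => (b, i))) (fun bi => bi.1.1 bi.2) a ?_
  · rw [← hcard, Fintype.card_prod, Fintype.card_coe, Fintype.card_fin] at this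
    exact this
  · intro p q hpq
    by_contra hne
    push Not at hne
    apply hpq
    apply Subtype.ext
    rw [ha p, ha q]
    ext b
    simp only [Set.mem_setOf_eq]
    refine and_congr_right fun hb => ?_
    have h1 := hne ⟨b, hb⟩
    rw [FirstOrder.Language.Formula.realize_relabel,
      FirstOrder.Language.Formula.realize_relabel] at h1
    have e : ∀ r, (Sum.elim (a r) (fun bi : B × Fin m => bi.1.1 bi.2) ∘
        Sum.map id fun i => ((⟨b, hb⟩ : B), i)) = Sum.elim (a r) b := by
      intro r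
      funext i
      rcases i with i | i <;> rfl
    rw [e, e] at h1
    exact h1

theorem lowVCDensity : LowVCDensity T0 := by
  intro k m φ
  refine sInf_le ⟨k, Nat.cast_nonneg k, ⟨((2 * m + 1) ^ k * 3 ^ (k * k) : ℕ), ?_⟩, by simp⟩
  intro n hn M _ _ hM B hB
  have h1 := card_typesOver hM φ B
  rw [hB] at h1
  have h2 : (2 * (n * m) + 1) ^ k * 3 ^ (k * k) ≤ (2 * m + 1) ^ k * 3 ^ (k * k) * n ^ k := by
    have h3 : 2 * (n * m) + 1 ≤ (2 * m + 1) * n := by nlinarith
    calc (2 * (n * m) + 1) ^ k * 3 ^ (k * k) ≤ ((2 * m + 1) * n) ^ k * 3 ^ (k * k) :=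
          Nat.mul_le_mul_right _ (Nat.pow_le_pow_left h3 k)
      _ = (2 * m + 1) ^ k * 3 ^ (k * k) * n ^ k := by rw [mul_pow]; ring
  rw [Real.rpow_natCast]
  calc ((typesOver φ B).ncard : ℝ) ≤ ((2 * (n * m) + 1) ^ k * 3 ^ (k * k) : ℕ) := by
        exact_mod_cast h1
    _ ≤ ((2 * m + 1) ^ k * 3 ^ (k * k) * n ^ k : ℕ) := by exact_mod_cast h2
    _ = (((2 * m + 1) ^ k * 3 ^ (k * k) : ℕ) : ℝ) * (n : ℝ) ^ k := by push_cast; ring

theorem dpMinimal : DpMinimal T0 := by
  classical
  rintro ⟨m, m', φ, ψ, M, iM, nM, hM, b, c, h⟩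
  -- use `n ^ 2` elements over `2 n` tuples
  let n : ℕ := 6 * (m + m') + 4
  have h' : ∀ ij : Fin n × Fin n, ∃ a : Fin 1 → M, a ∈ inst φ (b ij.1) ∧ a ∈ inst ψ (c ij.2) ∧
      (∀ k : Fin n, k ≠ ij.1 → a ∉ inst φ (b k)) ∧ ∀ l : Fin n, l ≠ ij.2 → a ∉ inst ψ (c l) := by
    intro ij
    obtain ⟨a, h1, h2, h3, h4⟩ := h ij.1 ij.2 (Finset.range n)
    exact ⟨a, h1, h2, fun k hk => h3 k (Finset.mem_range.2 k.2) fun e => hk (Fin.ext e),
      fun l hl => h4 l (Finset.mem_range.2 l.2) fun e => hl (Fin.ext e)⟩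
  choose a h1 h2 h3 h4 using h'
  have := count' hM (ι := (Fin n × Fin m) ⊕ (Fin n × Fin m')) (S := Fin n ⊕ Fin n)
    (κ := Fin n × Fin n)
    (Sum.elim (fun i => φ.relabel (Sum.map id fun j => Sum.inl (i, j)))
      fun i => ψ.relabel (Sum.map id fun j => Sum.inr (i, j)))
    (Sum.elim (fun ij => b ij.1 ij.2) fun ij => c ij.1 ij.2) a ?_
  · rw [Fintype.card_prod, Fintype.card_sum, Fintype.card_prod, Fintype.card_prod,
      Fintype.card_fin, Fintype.card_fin, Fintype.card_fin] at this
    simp only [n, pow_one, mul_one, ← mul_add] at this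
    generalize m + m' = s at this
    ring_nf at this
    omega
  · rintro ⟨i, j⟩ ⟨i', j'⟩ hne
    have e1 : ∀ r (i : Fin n), (Sum.elim (a r) (Sum.elim (fun ij : Fin n × Fin m => b ij.1 ij.2)
        fun ij : Fin n × Fin m' => c ij.1 ij.2) ∘ Sum.map id fun j => Sum.inl (i, j)) =
        Sum.elim (a r) (b i) := by
      intro r i
      funext i
      rcases i with i | i <;> rfl
    have e2 : ∀ r (i : Fin n), (Sum.elim (a r) (Sum.elim (fun ij : Fin n × Fin m => b ij.1 ij.2)
        fun ij : Fin n × Fin m' => c ij.1 ij.2) ∘ Sum.map id fun j => Sum.inr (i, j)) =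
        Sum.elim (a r) (c i) := by
      intro r i
      funext i
      rcases i with i | i <;> rfl
    by_cases hi : i = i'
    · have hj : j ≠ j' := fun e => hne (by rw [hi, e])
      refine ⟨Sum.inr j, ?_⟩
      rw [Sum.elim_inr, FirstOrder.Language.Formula.realize_relabel,
        FirstOrder.Language.Formula.realize_relabel, e2, e2]
      exact fun H => h4 (i', j') j hj (H.1 (h2 (i, j)))
    · refine ⟨Sum.inl i, ?_⟩
      rw [Sum.elim_inl, FirstOrder.Language.Formula.realize_relabel,
        FirstOrder.Language.Formula.realize_relabel, e1, e1]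
      exact fun H => h3 (i', j') i hi (H.1 (h1 (i, j)))

/-! ### Failure of weak VC-minimality -/

/-- Increasing 4-tuples satisfy the same formulas as their rotations. -/
theorem rot4 (χ : Lang.Formula (Fin 4)) {a : Fin 4 → M0} (ha : StrictMono a) (h : χ.Realize a) :
    χ.Realize (fun i => a (i + 1)) := by
  let x : Fin 4 → M0 := ![toLex (false, 0), toLex (false, 1), toLex (false, 2), toLex (true, 0)]
  have hx : StrictMono x := by
    rw [Fin.strictMono_iff_lt_succ]
    intro i
    fin_cases i <;> simp [x, lt_def]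
  have h1 : χ.Realize x := (bf' χ fun i j => by rw [ha.lt_iff_lt, hx.lt_iff_lt]).1 h
  have h2 : χ.Realize (rot ∘ x) := by
    have := (FirstOrder.Language.StrongHomClass.realize_formula rotE χ (v := x)).2 h1
    exact this
  refine (bf' χ (v := rot ∘ x) ?_).1 h2
  have hy : ∀ i j : Fin 4, (rot ∘ x) i < (rot ∘ x) j ↔ i + 1 < j + 1 := by
    intro i j
    fin_cases i <;> fin_cases j <;> simp [x, rot, lt_def] <;> norm_num
  intro i j
  rw [hy, ha.lt_iff_lt]

theorem cross {k : ℕ} (ψ : Lang.Formula (Fin 1 ⊕ Fin k)) (c : Fin k → M0) {a : Fin 4 → M0}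
    (ha : StrictMono a) : ∃ c' : Fin k → M0, ∀ i,
      (fun _ => a (i + 1)) ∈ inst ψ c' ↔ (fun _ => a i) ∈ inst ψ c := by
  classical
  let χ : Lang.Formula (Fin 4) := (FirstOrder.Language.Formula.iInf fun i : Fin 4 =>
    if (fun _ => a i) ∈ inst ψ c then
      ψ.relabel (Sum.map (fun _ => i) id : Fin 1 ⊕ Fin k → Fin 4 ⊕ Fin k)
    else ∼(ψ.relabel (Sum.map (fun _ => i) id : Fin 1 ⊕ Fin k → Fin 4 ⊕ Fin k))).iExs (Fin k)
  have hχ : ∀ u : Fin 4 → M0, χ.Realize u ↔ ∃ c' : Fin k → M0, ∀ i,
      (fun _ => u i) ∈ inst ψ c' ↔ (fun _ => a i) ∈ inst ψ c := by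
    intro u
    rw [FirstOrder.Language.Formula.realize_iExs]
    refine exists_congr fun c' => ?_
    rw [FirstOrder.Language.Formula.realize_iInf]
    refine forall_congr' fun i => ?_
    have e : (Sum.elim u c' ∘ (Sum.map (fun _ => i) id : Fin 1 ⊕ Fin k → Fin 4 ⊕ Fin k)) =
        Sum.elim (fun _ => u i) c' := by
      funext j
      rcases j with j | j <;> rfl
    split_ifs with h
    · rw [FirstOrder.Language.Formula.realize_relabel, e]
      simp only [h, iff_true]
      rfl
    · rw [FirstOrder.Language.Formula.realize_not,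
        FirstOrder.Language.Formula.realize_relabel, e]
      simp only [h, iff_false]
      rfl
  exact (hχ _).1 (rot4 χ ha ((hχ a).2 ⟨c, fun i => Iff.rfl⟩))

theorem model_M0 : M0 ⊨ T0 := FirstOrder.Language.model_completeTheory (L := Lang) (M := M0)

theorem mem_iff_of_code {k : ℕ} (ψ : Lang.Formula (Fin 1 ⊕ Fin k)) (c : Fin k → M0) {x y : M0}
    (h : code (Finset.univ.image c) x = code (Finset.univ.image c) y) :
    (fun _ => x) ∈ inst ψ c ↔ (fun _ => y) ∈ inst ψ c := by
  refine bf' ψ (same_of_code (Finset.univ.image c) c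
    (fun i => Finset.mem_image_of_mem _ (Finset.mem_univ _)) (fun _ => h) fun _ _ => ?_)
  rw [cmp_self_eq_eq, cmp_self_eq_eq]

/-- An infinite set of points contains two points of the same code. -/
theorem exists_pair {k : ℕ} (c : Fin k → M0) {X : Set (Fin 1 → M0)} (hX : X.Infinite) :
    ∃ x y : M0, x < y ∧ (fun _ => x) ∈ X ∧ (fun _ => y) ∈ X ∧
      code (Finset.univ.image c) x = code (Finset.univ.image c) y := by
  obtain ⟨x, hx, y, hy, hne, h⟩ := hX.exists_ne_map_eq_of_mapsTo
    (f := fun u => code (Finset.univ.image c) (u 0))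
    (t := Set.Iic (2 * (Finset.univ.image c).card))
    (fun u _ => code_le _ _) (Set.finite_Iic _)
  have ex : (fun _ => x 0) = x := funext fun i => by rw [Subsingleton.elim i 0]
  have ey : (fun _ => y 0) = y := funext fun i => by rw [Subsingleton.elim i 0]
  have hne' : x 0 ≠ y 0 := fun e => hne (by rw [← ex, ← ey, e])
  rcases lt_or_gt_of_ne hne' with h1 | h1
  · exact ⟨x 0, y 0, h1, by rw [ex]; exact hx, by rw [ey]; exact hy, h⟩
  · exact ⟨y 0, x 0, h1, by rw [ey]; exact hy, by rw [ex]; exact hx, h.symm⟩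

/-- Formulas of independence dimension at most one only have finite and cofinite instances. -/
theorem finite_or_cofinite {k : ℕ} (ψ : Lang.Formula (Fin 1 ⊕ Fin k)) (hψ : IndepDimLE T0 ψ 1)
    (c : Fin k → M0) : (inst ψ c).Finite ∨ (inst ψ c)ᶜ.Finite := by
  classical
  by_contra hne
  rw [not_or] at hne
  obtain ⟨hf1, hf2⟩ := hne
  obtain ⟨i1, i2, hi, hi1, hi2, hi3⟩ := exists_pair c hf1
  obtain ⟨j1, j2, hj, hj1, hj2, hj3⟩ := exists_pair c hf2
  have key : ∃ c' : Fin k → M0, (fun _ => i2) ∈ inst ψ c' ∧ (fun _ => j1) ∈ inst ψ c' ∧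
      (fun _ => j2) ∉ inst ψ c' ∧ (fun _ => i1) ∉ inst ψ c' := by
    rcases lt_trichotomy (code (Finset.univ.image c) i1) (code (Finset.univ.image c) j1) with
      h | h | h
    · have hlt : i2 < j1 := lt_of_code_lt _ (by rw [← hi3]; exact h)
      have ha : StrictMono (![i1, i2, j1, j2] : Fin 4 → M0) := by
        rw [Fin.strictMono_iff_lt_succ]
        intro i
        fin_cases i
        · exact hi
        · exact hlt
        · exact hj
      obtain ⟨c', hc'⟩ := cross ψ c ha
      exact ⟨c', (hc' 0).2 hi1, (hc' 1).2 hi2, fun H => hj1 ((hc' 2).1 H),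
        fun H => hj2 ((hc' 3).1 H)⟩
    · exact absurd ((mem_iff_of_code ψ c h).1 hi1) hj1
    · have hlt : j2 < i1 := lt_of_code_lt _ (by rw [← hj3]; exact h)
      have ha : StrictMono (![j1, j2, i1, i2] : Fin 4 → M0) := by
        rw [Fin.strictMono_iff_lt_succ]
        intro i
        fin_cases i
        · exact hj
        · exact hlt
        · exact hi
      obtain ⟨c', hc'⟩ := cross ψ c ha
      exact ⟨c', (hc' 2).2 hi1, (hc' 3).2 hi2, fun H => hj1 ((hc' 0).1 H),
        fun H => hj2 ((hc' 1).1 H)⟩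
  obtain ⟨c', k1, k2, k3, k4⟩ := key
  have hXY : inst ψ c ≠ inst ψ c' := fun e => k4 (e ▸ hi1)
  have hind : Independent ({inst ψ c, inst ψ c'} : Set (Set (Fin 1 → M0))) := by
    intro S hS
    have main : ∀ w : Fin 1 → M0, (inst ψ c ∈ S ↔ w ∈ inst ψ c) →
        (inst ψ c' ∈ S ↔ w ∈ inst ψ c') →
        ((⋂ B ∈ S, B) ∩ ⋂ B ∈ {inst ψ c, inst ψ c'} \ S, Bᶜ).Nonempty := by
      intro w h1 h2
      refine ⟨w, ?_, ?_⟩
      · rw [Set.mem_iInter₂]
        intro B hB
        rcases hS hB with rfl | rfl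
        · exact h1.1 hB
        · exact h2.1 hB
      · rw [Set.mem_iInter₂]
        rintro B ⟨hB, hBS⟩
        rcases hB with rfl | rfl
        · exact fun H => hBS (h1.2 H)
        · exact fun H => hBS (h2.2 H)
    by_cases h1 : inst ψ c ∈ S <;> by_cases h2 : inst ψ c' ∈ S
    · exact main (fun _ => i2) (by simp only [h1, hi2]) (by simp only [h2, k1])
    · exact main (fun _ => i1) (by simp only [h1, hi1]) (by simp only [h2, k4])
    · exact main (fun _ => j1) (iff_of_false h1 hj1) (by simp only [h2, k2])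
    · exact main (fun _ => j2) (iff_of_false h1 hj2) (by simp only [h2, k3])
  have h3 := hψ M0 model_M0 {inst ψ c, inst ψ c'} (by
    rintro X (rfl | rfl)
    · exact ⟨c, rfl⟩
    · exact ⟨c', rfl⟩) hind
  rw [Set.encard_pair hXY] at h3
  exact absurd h3 (by decide)

/-- The formula `C(y₀, x, y₁)`. -/
def arc : Lang.Formula (Fin 1 ⊕ Fin 2) :=
  FirstOrder.Language.Relations.formula (L := Lang) (n := 3) Rel.cyc
    ![FirstOrder.Language.Term.var (Sum.inr 0), FirstOrder.Language.Term.var (Sum.inl 0),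
      FirstOrder.Language.Term.var (Sum.inr 1)]

theorem mem_arc (b : Fin 2 → M0) (a : Fin 1 → M0) : a ∈ inst arc b ↔ C (b 0) (a 0) (b 1) := by
  show arc.Realize (Sum.elim a b) ↔ _
  rw [arc, FirstOrder.Language.Formula.realize_rel]
  exact Iff.rfl

theorem not_weaklyVCMinimal : ¬ WeaklyVCMinimal T0 := by
  intro h
  have h1 := h M0 model_M0 2 arc ![toLex (false, 0), toLex (true, 0)]
  have h2 : ∀ X ∈ BooleanSubalgebra.closure {X : Set (Fin 1 → M0) |
      ∃ (m' : ℕ) (ψ : Lang.Formula (Fin 1 ⊕ Fin m')) (c : Fin m' → M0),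
        IndepDimLE T0 ψ 1 ∧ X = inst ψ c}, X.Finite ∨ Xᶜ.Finite := by
    intro X hX
    induction hX using BooleanSubalgebra.closure_bot_sup_induction with
    | mem X hX =>
      obtain ⟨m', ψ, c, hψ, rfl⟩ := hX
      exact finite_or_cofinite ψ hψ c
    | bot => exact Or.inl Set.finite_empty
    | sup X hX Y hY ihX ihY =>
      rcases ihX with h1 | h1
      · rcases ihY with h2 | h2
        · exact Or.inl (h1.union h2)
        · refine Or.inr (h2.subset ?_)
          exact Set.compl_subset_compl.2 Set.subset_union_right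
      · refine Or.inr (h1.subset ?_)
        exact Set.compl_subset_compl.2 Set.subset_union_left
    | compl X hX ih =>
      rcases ih with h1 | h1
      · right
        rw [compl_compl]
        exact h1
      · exact Or.inl h1
  have inj : ∀ e : Bool, Function.Injective fun n : ℕ => (fun _ => toLex (e, (n : ℚ) + 1) :
      Fin 1 → M0) := by
    intro e n n' hn
    have := congrArg (fun u : Fin 1 → M0 => (ofLex (u 0)).2) hn
    simpa using this
  rcases h2 _ h1 with h3 | h3
  · refine (Set.infinite_of_injective_forall_mem (inj false) fun n => ?_) h3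
    rw [mem_arc]
    left
    constructor
    · rw [lt_def]
      right
      refine ⟨rfl, ?_⟩
      show (0 : ℚ) < n + 1
      positivity
    · rw [lt_def]
      left
      show false < true
      decide
  · refine (Set.infinite_of_injective_forall_mem (inj true) fun n => ?_) h3
    rw [Set.mem_compl_iff, mem_arc]
    have hn : (0 : ℚ) < n + 1 := by positivity
    unfold C
    simp only [lt_def]
    simp
    exact hn.le

/-- There is a complete theory of low VC-density, dp-minimal too, which is not weakly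
VC-minimal. -/
theorem result : ∃ (L : FirstOrder.Language.{0, 0}) (T : L.Theory), T.IsComplete ∧
    LowVCDensity T ∧ DpMinimal T ∧ ¬ WeaklyVCMinimal T :=
  ⟨Lang, T0, FirstOrder.Language.completeTheory.isComplete _ _, lowVCDensity, dpMinimal,
    not_weaklyVCMinimal⟩

end Pool.Agent.Results.MP_670fc8_lc.DenseCyclicOrder
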